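import Pool.Agent.TH80.CLX.Defs

/-!
# Closed manifolds over tori: definitions

`V n = ℝⁿ`; `IsLieAction n N ι O act`: smooth action of a compact Lie group on the open set `O`
(`Pool/Agent/TH80/CLX/Defs.lean`).
-/

set_option autoImplicit false

open scoped Manifold ContDiff Topology
open Filter Set Metric

universe u

namespace Pool.Agent.Q183.CE

open Pool.Agent.H718R2.G

/-- The orbit space `N / G` of the action `act` of `G` is the torus `E / Λ`, with the projection `π`
(the fibres of `π` are the orbits), and `R` is a smooth lift of the translations of the torus: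
`R s` is a diffeomorphism of `N` which commutes with the action and lies over the translation by `s`,
depends smoothly on `s`, and `R 0 = id`, `(R s)⁻¹ = R (-s)`. For a free action (a principal bundle
over the torus) such an `R` always exists: `R s` is the time one map of the horizontal lift of the
constant vector field `s` for a smooth connection. -/
structure IsTorusQuot (n : ℕ) (N : Type u) [TopologicalSpace N] [ChartedSpace (V n) N]
    {G : Type} {E : Type} [NormedAddCommGroup E] [NormedSpace ℝ E] (Λ : AddSubgroup E)
    (act : G → N → N) (π : N → E ⧸ Λ) (R : E → N → N) : Prop where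
  cont : Continuous π
  fib : ∀ y y', π y = π y' ↔ ∃ g, y' = act g y
  smooth : ContMDiff (𝓘(ℝ, E).prod (𝓡 n)) (𝓡 n) ∞ (fun p : E × N => R p.1 p.2)
  zero : ∀ y, R 0 y = y
  neg : ∀ s y, R (-s) (R s y) = y
  comm : ∀ s g y, R s (act g y) = act g (R s y)
  cover : ∀ (s : E) y, π (R s y) = π y + (s : E ⧸ Λ)

/-- `R` is a smooth action of the torus `E / Λ` on the manifold `N`. -/
structure IsTorusActE (n : ℕ) (N : Type u) [TopologicalSpace N] [ChartedSpace (V n) N]
    {E : Type} [NormedAddCommGroup E] [NormedSpace ℝ E] (Λ : AddSubgroup E)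
    (R : E → N → N) : Prop where
  smooth : ContMDiff (𝓘(ℝ, E).prod (𝓡 n)) (𝓡 n) ∞ (fun p : E × N => R p.1 p.2)
  zero : ∀ y, R 0 y = y
  add : ∀ s t y, R (s + t) y = R s (R t y)
  per : ∀ s ∈ Λ, ∀ y, R s y = y

end Pool.Agent.Q183.CE
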