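import Pool.Agent.TH80.CLX.Cor
import Pool.Agent.H922R3.CL.DefsB
import Pool.Agent.Q183.CE.Defs

/-!
# Closing by translations of the base torus
-/

set_option autoImplicit false
set_option linter.unusedSectionVars false

open scoped Manifold ContDiff Topology
open Filter Set Metric

universe u

namespace Pool.Agent.Q183.CE

open Pool.Agent.H718R2.G Pool.Agent.W564.SC Pool.Agent.TH290.CL Pool.Agent.TH80.CLX

variable {n : ℕ} {N : Type u} [TopologicalSpace N] [ChartedSpace (V n) N]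
  {E : Type} [NormedAddCommGroup E] [NormedSpace ℝ E] {Λ : AddSubgroup E}

/-- `t` can be made periodic by composing `f` with small translations. -/
def TransClosable (Λ : AddSubgroup E) (f : E → E) (t : E) : Prop :=
  ∀ ε : ℝ, 0 < ε → ∃ u w : E, ‖u‖ < ε ∧ ‖w‖ < ε ∧
    ∃ m : ℕ, 1 ≤ m ∧ (fun x => f (x - w) + u)^[m] t - t ∈ Λ

/-- the family `R u ∘ F ∘ R (-w)` -/
theorem transl_fam (r : ℕ∞) (F : DiffM n N r) (R : E → N → N)
    (hR : ContMDiff (𝓘(ℝ, E).prod (𝓡 n)) (𝓡 n) ∞ (fun p : E × N => R p.1 p.2))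
    (h0 : ∀ y, R 0 y = y) (hneg : ∀ s y, R (-s) (R s y) = y) :
    ∃ H : E × E → DiffM n N r, IsFam n N r H ∧ H 0 = F ∧
      ∀ p y, H p y = R p.1 (F (R (-p.2) y)) := by
  have hr' : (r : WithTop ℕ∞) ≤ ∞ := by exact_mod_cast le_top
  have hj : ContMDiff (𝓘(ℝ, E).prod (𝓡 n)) (𝓡 n) r (fun p : E × N => R p.1 p.2) := hR.of_le hr'
  have hRs : ∀ s : E, ContMDiff (𝓡 n) (𝓡 n) r (R s) := by
    intro s
    have h1 : ContMDiff (𝓡 n) (𝓘(ℝ, E).prod (𝓡 n)) r (fun y : N => ((s, y) : E × N)) :=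
      contMDiff_const.prodMk contMDiff_id
    exact ContMDiff.comp (g := fun p : E × N => R p.1 p.2) (f := fun y : N => (s, y)) hj h1
  have hneg' : ∀ s y, R s (R (-s) y) = y := fun s y => by
    have := hneg (-s) y
    rwa [neg_neg] at this
  let T : E → DiffM n N r := fun s => ⟨⟨R s, R (-s), hneg s, hneg' s⟩, hRs s, hRs (-s)⟩
  obtain ⟨H, hH⟩ : ∃ H : E × E → DiffM n N r, ∀ p y, H p y = R p.1 (F (R (-p.2) y)) :=
    ⟨fun p => ((T (-p.2)).trans F).trans (T p.1), fun p y => rfl⟩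
  refine ⟨H, ?_, ?_, hH⟩
  · intro y
    have e1 : (fun q : (E × E) × N => H q.1 q.2) = fun q => R q.1.1 (F (R (-q.1.2) q.2)) := by
      funext q
      exact hH _ _
    rw [e1]
    have a1 : ContMDiff (𝓘(ℝ, E × E).prod (𝓡 n)) 𝓘(ℝ, E × E) r
        (fun q : (E × E) × N => q.1) := contMDiff_fst
    have a2 : ContMDiff (𝓘(ℝ, E × E).prod (𝓡 n)) (𝓡 n) r
        (fun q : (E × E) × N => q.2) := contMDiff_snd
    have b1 : ContMDiff 𝓘(ℝ, E × E) 𝓘(ℝ, E) r (fun p : E × E => p.1) :=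
      contDiff_fst.contMDiff
    have b2 : ContMDiff 𝓘(ℝ, E × E) 𝓘(ℝ, E) r (fun p : E × E => -p.2) :=
      contDiff_snd.neg.contMDiff
    have c1 : ContMDiff (𝓘(ℝ, E × E).prod (𝓡 n)) (𝓘(ℝ, E).prod (𝓡 n)) r
        (fun q : (E × E) × N => ((-q.1.2, q.2) : E × N)) := (b2.comp a1).prodMk a2
    have c2 : ContMDiff (𝓘(ℝ, E × E).prod (𝓡 n)) (𝓡 n) r
        (fun q : (E × E) × N => F (R (-q.1.2) q.2)) :=
      F.contMDiff.comp (ContMDiff.comp (g := fun p : E × N => R p.1 p.2)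
        (f := fun q : (E × E) × N => ((-q.1.2, q.2) : E × N)) hj c1)
    have c3 : ContMDiff (𝓘(ℝ, E × E).prod (𝓡 n)) (𝓘(ℝ, E).prod (𝓡 n)) r
        (fun q : (E × E) × N => ((q.1.1, F (R (-q.1.2) q.2)) : E × N)) :=
      (b1.comp a1).prodMk c2
    exact (ContMDiff.comp (g := fun p : E × N => R p.1 p.2)
      (f := fun q : (E × E) × N => ((q.1.1, F (R (-q.1.2) q.2)) : E × N)) hj c3).contMDiffAt
  · ext y
    rw [hH]
    show R 0 (F (R (-0) y)) = F y
    rw [neg_zero, h0, h0]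

variable [T2Space N] [CompactSpace N] [IsManifold (𝓡 n) ∞ N]

/-- Equivariant diffeomorphisms: closing by translations of the orbit space. -/
theorem closable_of_transl (r : ℕ∞) (hr : 1 ≤ r) {G : Type} [Group G] [TopologicalSpace G]
    [CompactSpace G] {q : ℕ} {ι : G →* Matrix (Fin q) (Fin q) ℂ} {act : G → N → N}
    (hact : IsLieAction n N ι univ act) {π : N → E ⧸ Λ} {R : E → N → N}
    (hR : IsTorusQuot n N Λ act π R) (F : DiffM n N r) (hF : ∀ g y, F (act g y) = act g (F y))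
    (f : E → E) (hf : ∀ y (t : E), π y = (t : E ⧸ Λ) → π (F y) = (f t : E ⧸ Λ))
    (z : N) (t : E) (hz : π z = (t : E ⧸ Λ)) (ht : TransClosable Λ f t) : Closable n N r F z := by
  apply main r hr F z
  intro U hU hFU
  obtain ⟨H, hfam, hH0, hH⟩ := transl_fam r F R hR.smooth hR.zero hR.neg
  obtain ⟨κ, hκ, hmem⟩ := fam_mem r hr H hfam z U hU (by rw [hH0]; exact hFU)
  obtain ⟨u, w, hu, hw, m, hm, hper⟩ := ht κ hκ
  have huw : ‖((u, w) : E × E)‖ < κ := by
    rw [Prod.norm_def]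
    exact max_lt hu hw
  refine ⟨H (u, w), hmem _ huw, subset_closure ?_⟩
  have hHG : ∀ g y, H (u, w) (act g y) = act g (H (u, w) y) := by
    intro g y
    rw [hH, hH, hR.comm, hF, hR.comm]
  have hit : ∀ i : ℕ, π ((H (u, w))^[i] z) = (((fun x => f (x - w) + u)^[i] t : E) : E ⧸ Λ) := by
    intro i
    induction i with
    | zero => exact hz
    | succ i ih =>
      rw [Function.iterate_succ_apply', Function.iterate_succ_apply', hH, hR.cover,
        hf (R (-w) ((H (u, w))^[i] z)) ((fun x => f (x - w) + u)^[i] t - w) ?_]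
      · rfl
      · rw [hR.cover, ih, sub_eq_add_neg]
        rfl
  obtain ⟨g, hg⟩ := (hR.fib z ((H (u, w))^[m] z)).1 (by
    rw [hit m, hz]
    apply QuotientAddGroup.eq.2
    rwa [neg_add_eq_sub])
  exact homPer_of_commute hact (H (u, w)) hHG z ⟨m, hm, g, hg⟩

open Pool.Agent.H922R3.CL in
/-- nonwandering points project to nonwandering points -/
theorem nonwand_base {G : Type} [Group G] {act : G → N → N} {π : N → E ⧸ Λ} {R : E → N → N}
    (hR : IsTorusQuot n N Λ act π R) (F : N → N) (f : E → E)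
    (hf : ∀ y (t : E), π y = (t : E ⧸ Λ) → π (F y) = (f t : E ⧸ Λ))
    (z : N) (t : E) (hz : π z = (t : E ⧸ Λ)) (hnw : NonWand F z) : IsNonwand Λ f t := by
  intro δ hδ
  have hopen : IsOpen ((fun x : E => (x : E ⧸ Λ)) '' ball t δ) :=
    QuotientAddGroup.isOpenMap_coe _ isOpen_ball
  have hW : π ⁻¹' ((fun x : E => (x : E ⧸ Λ)) '' ball t δ) ∈ 𝓝 z := by
    apply (hopen.preimage hR.cont).mem_nhds
    exact ⟨t, mem_ball_self hδ, hz.symm⟩
  obtain ⟨m, hm, y, ⟨w, hw, hwy⟩, ⟨v, hv, hvy⟩⟩ := hnw _ hW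
  have hit : ∀ i : ℕ, π (F^[i] y) = ((f^[i] w : E) : E ⧸ Λ) := by
    intro i
    induction i with
    | zero => exact hwy.symm
    | succ i ih =>
      rw [Function.iterate_succ_apply', Function.iterate_succ_apply']
      exact hf _ _ ih
  refine ⟨m, w, -v + f^[m] w, hm, ?_, hw, ?_⟩
  · rw [← QuotientAddGroup.eq, ← hit m]
    exact hvy
  · have e : dist (f^[m] w) (t + (-v + f^[m] w)) = dist v t := by
      rw [dist_eq_norm, dist_eq_norm]
      congr 1
      abel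
    rw [e]
    exact hv

end Pool.Agent.Q183.CE
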