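import Pool.Agent.H922R3.CL.MixB
import Pool.Agent.Q183.CE.Base

/-!
# Mixed towers can be closed by translations
-/

set_option autoImplicit false

open scoped Manifold ContDiff Topology
open Filter Set Metric

universe u

namespace Pool.Agent.Q183.CE

open Pool.Agent.H922R3.CL

/-- The torus `𝕋^d × 𝕋^l × 𝕋^s × 𝕋^e × 𝕋^m`. -/
abbrev TM (d l s e m : ℕ) : Type := VM d l s e m ⧸ ZM d l s e m

/-- The orbit space of the action `act` on `N` is the torus `TM d l s e m`, with projection `π`, the
translations of this torus lift to `N` (see `IsTorusQuot`), and the homeomorphism of the torus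
induced by `F` has the lift `F₀`, which is a tower over a mixed base map. -/
structure OverMixedTower (n : ℕ) (N : Type u) [TopologicalSpace N]
    [ChartedSpace (Pool.Agent.H718R2.G.V n) N] {G : Type} (act : G → N → N) (F : N → N)
    (d l s e m : ℕ) (π : N → TM d l s e m) (F₀ : VM d l s e m ≃ VM d l s e m) : Prop where
  quot : ∃ R, IsTorusQuot n N (ZM d l s e m) act π R
  tower : ∃ H, IsMixedBase H ∧ MixTower 0 H F₀
  lift : ∀ (y : N) (t : VM d l s e m), π y = QuotientAddGroup.mk t →
    π (F y) = QuotientAddGroup.mk (F₀ t)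

/-- Nonwandering points of mixed towers can be closed by translations. -/
theorem mixed_transl {d l s e m : ℕ} {H : Pool.Agent.H922R3.CL.V d l s → Pool.Agent.H922R3.CL.V d l s}
    (hH : IsMixedBase H) {F₀ : VM d l s e m ≃ VM d l s e m} (hF₀ : MixTower 0 H F₀)
    {t : VM d l s e m} (ht : MixNonwand F₀ t) : TransClosable (ZM d l s e m) F₀ t := by
  intro ε hε
  obtain ⟨u, w, K, hu, hw, hK, -, -, m', hm', hper⟩ :=
    B.main (ZV_near d l s) (B.mixed_clos hH) hF₀ t ht (k := 0) le_rfl hε
  refine ⟨u, w, hu, hw, m', hm', ?_⟩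
  have e : (K : VM d l s e m → VM d l s e m) = fun x => F₀ (x - w) + u := funext hK
  rw [← e]
  exact hper

end Pool.Agent.Q183.CE
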