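import Pool.Agent.Q183.CE.Mixed

/-!
# Skew products over towers, with values in a compact Lie group acting on the fibre
-/

set_option autoImplicit false
set_option linter.unusedSectionVars false

open scoped Manifold ContDiff Topology
open Filter Set Metric

universe u

namespace Pool.Agent.Q183.CE

open Pool.Agent.H718R2.G Pool.Agent.W564.SC Pool.Agent.TH290.CL Pool.Agent.TH80.CLX

/-- `N` is a product `(E / Λ) × X` of a torus and a manifold `X` with an action of `G`: the torus
`E / Λ` acts smoothly on `N` (by `R`), this action commutes with the action `act` of `G`, and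
`π : N → E / Λ` is continuous, invariant under `G` and `π (R s y) = π y + s`. The factor `X` is
`π⁻¹(0)`, and `(t, x) ↦ R t x` is the identification of `(E / Λ) × X` with `N`. -/
structure IsProd (n : ℕ) (N : Type u) [TopologicalSpace N] [ChartedSpace (V n) N]
    {G : Type} {E : Type} [NormedAddCommGroup E] [NormedSpace ℝ E] (Λ : AddSubgroup E)
    (act : G → N → N) (π : N → E ⧸ Λ) (R : E → N → N) : Prop extends IsTorusActE n N Λ R where
  cont : Continuous π
  inv : ∀ g y, π (act g y) = π y
  comm : ∀ s g y, R s (act g y) = act g (R s y)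
  cover : ∀ (s : E) y, π (R s y) = π y + (s : E ⧸ Λ)

variable {n : ℕ} {N : Type u} [TopologicalSpace N] [ChartedSpace (V n) N]
  {E : Type} [NormedAddCommGroup E] [NormedSpace ℝ E] {Λ : AddSubgroup E}

theorem IsTorusActE.neg {R : E → N → N} (hR : IsTorusActE n N Λ R) (s : E) (y : N) :
    R (-s) (R s y) = y := by
  rw [← hR.add, neg_add_cancel, hR.zero]

theorem exists_fib {G : Type} {act : G → N → N} {π : N → E ⧸ Λ} {R : E → N → N}
    (hP : IsProd n N Λ act π R) (z : N) (t : E) (hz : π z = (t : E ⧸ Λ)) :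
    ∃ x, π x = 0 ∧ R t x = z := by
  refine ⟨R (-t) z, ?_, ?_⟩
  · rw [hP.cover, hz, ← QuotientAddGroup.mk_add, add_neg_cancel]
    rfl
  · rw [← hP.add, add_neg_cancel, hP.zero]

/-- the restriction of an action to the centraliser of an element -/
theorem restrict_centralizer {G : Type} [Group G] [TopologicalSpace G] [CompactSpace G] {q : ℕ}
    {ι : G →* Matrix (Fin q) (Fin q) ℂ} {act : G → N → N} (hact : IsLieAction n N ι univ act)
    (b : G) : CompactSpace (Subgroup.centralizer {b}) ∧
      IsLieAction n N (ι.comp (Subgroup.centralizer {b}).subtype) univ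
        (fun g y => act g.1 y) := by
  constructor
  · have hcl : IsClosed ((Subgroup.centralizer {b} : Subgroup G) : Set G) := by
      have e : ((Subgroup.centralizer {b} : Subgroup G) : Set G) =
          {g | ι g * ι b = ι b * ι g} := by
        ext g
        rw [SetLike.mem_coe, Subgroup.mem_centralizer_singleton_iff, mem_setOf_eq, ← map_mul,
          ← map_mul]
        exact ⟨fun h => by rw [h], fun h => hact.rep_inj h⟩
      rw [e]
      exact isClosed_eq (hact.rep_cont.mul continuous_const) (continuous_const.mul hact.rep_cont)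
    exact isCompact_iff_compactSpace.1 hcl.isCompact
  · refine ⟨?_, ?_, hact.isOpen, fun g => hact.maps g, hact.one, fun g h => hact.mul g h, ?_, ?_⟩
    · exact hact.rep_cont.comp continuous_subtype_val
    · exact hact.rep_inj.comp Subtype.val_injective
    · have h1 : Continuous (fun p : (Subgroup.centralizer {b} : Subgroup G) × N =>
          ((p.1.1, p.2) : G × N)) :=
        (continuous_subtype_val.comp continuous_fst).prodMk continuous_snd
      exact hact.cont.comp h1.continuousOn (fun p _ => ⟨mem_univ _, mem_univ _⟩)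
    · intro j c hc
      exact hact.smooth j (fun s => (c s).1) hc

variable [T2Space N] [CompactSpace N] [IsManifold (𝓡 n) ∞ N]

/-- Skew products `F (t, x) = (f t, A(t) x)` on `(E / Λ) × X`, `A(t)` in a compact Lie group acting
on `X`: closing of `t` by translations implies closing of `(t, x)`. -/
theorem closable_of_skew (r : ℕ∞) (hr : 1 ≤ r) {G : Type} [Group G] [TopologicalSpace G]
    [CompactSpace G] {q : ℕ} {ι : G →* Matrix (Fin q) (Fin q) ℂ} {act : G → N → N}
    (hact : IsLieAction n N ι univ act) {π : N → E ⧸ Λ} {R : E → N → N}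
    (hP : IsProd n N Λ act π R) (F : DiffM n N r) (f : E → E) (A : E → G)
    (hF : ∀ t x, π x = 0 → F (R t x) = act (A t) (R (f t) x))
    (z : N) (t : E) (hz : π z = (t : E ⧸ Λ)) (ht : TransClosable Λ f t) : Closable n N r F z := by
  classical
  apply main r hr F z
  intro U hU hFU
  obtain ⟨H, hfam, hH0, hH⟩ := transl_fam r F R hP.smooth hP.zero hP.neg
  obtain ⟨κ, hκ, hmem⟩ := fam_mem r hr H hfam z U hU (by rw [hH0]; exact hFU)
  obtain ⟨u, w, hu, hw, hper⟩ := ht κ hκ
  have huw : ‖((u, w) : E × E)‖ < κ := by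
    rw [Prod.norm_def]
    exact max_lt hu hw
  refine ⟨H (u, w), hmem _ huw, subset_closure ?_⟩
  obtain ⟨x, hx, rfl⟩ := exists_fib hP z t hz
  -- the perturbed maps
  set f' : E → E := fun s => f (s - w) + u with hf'
  have hstep : ∀ s y, π y = 0 → H (u, w) (R s y) = act (A (s - w)) (R (f' s) y) := by
    intro s y hy
    rw [hH]
    show R u (F (R (-w) (R s y))) = _
    rw [← hP.add, neg_add_eq_sub, hF _ _ hy, hP.comm, ← hP.add, hf', add_comm u]
  have hit : ∀ i : ℕ, ∃ c : G, ∀ g, (H (u, w))^[i] (act g (R t x)) =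
      act (c * g) (R (f'^[i] t) x) := by
    intro i
    induction i with
    | zero => exact ⟨1, fun g => by rw [one_mul]; rfl⟩
    | succ i ih =>
      obtain ⟨c, hc⟩ := ih
      refine ⟨A (f'^[i] t - w) * c, fun g => ?_⟩
      rw [Function.iterate_succ_apply', hc, Function.iterate_succ_apply' f', ← hP.comm,
        hstep _ _ (by rw [hP.inv, hx]), hP.comm, ← hact.mul _ _ _ (mem_univ _), mul_assoc]
  obtain ⟨hm, hmΛ⟩ := Nat.find_spec hper
  set m := Nat.find hper with hmdef
  obtain ⟨b, hb⟩ := hit m
  have hback : R (f'^[m] t) x = R t x := by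
    have e : f'^[m] t = (f'^[m] t - t) + t := by abel
    rw [e, hP.add, hP.per _ hmΛ]
  rw [hback] at hb
  obtain ⟨hK, hK'⟩ := restrict_centralizer hact b
  have hbm : b ∈ Subgroup.centralizer {b} := by
    rw [Subgroup.mem_centralizer_singleton_iff]
  have hb1 : (H (u, w))^[m] (R t x) = act b (R t x) := by
    have := hb 1
    rwa [hact.one _ (mem_univ _), mul_one] at this
  refine ⟨Subgroup.centralizer {b}, inferInstance, inferInstance, hK, q, _, univ, _, hK',
    mem_univ _, m, hm, ⟨⟨b, hbm⟩, hb1⟩, fun g => ?_, fun i hi1 him g h hgh => ?_⟩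
  · show (H (u, w))^[m] (act g.1 (R t x)) = act g.1 ((H (u, w))^[m] (R t x))
    rw [hb, hb1, ← hact.mul _ _ _ (mem_univ _)]
    congr 1
    have := Subgroup.mem_centralizer_singleton_iff.1 g.2
    exact this.symm
  · obtain ⟨c, hc⟩ := hit i
    have hgh' : (H (u, w))^[i] (act g.1 (R t x)) = act h.1 (R t x) := hgh
    rw [hc] at hgh'
    apply Nat.find_min hper him
    refine ⟨hi1, ?_⟩
    have h1 := congrArg π hgh'
    rw [hP.inv, hP.inv, hP.cover, hP.cover, hx, zero_add, zero_add] at h1
    have h2 := QuotientAddGroup.eq.1 h1.symm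
    rwa [neg_add_eq_sub] at h2

open Pool.Agent.H922R3.CL in
/-- nonwandering points project to nonwandering points -/
theorem nonwand_prod {π : N → E ⧸ Λ}
    (hπ : Continuous π) (F : N → N) (f : E → E)
    (hf : ∀ y (t : E), π y = (t : E ⧸ Λ) → π (F y) = (f t : E ⧸ Λ))
    (z : N) (t : E) (hz : π z = (t : E ⧸ Λ)) (hnw : NonWand F z) : IsNonwand Λ f t := by
  intro δ hδ
  have hopen : IsOpen ((fun x : E => (x : E ⧸ Λ)) '' ball t δ) :=
    QuotientAddGroup.isOpenMap_coe _ isOpen_ball
  have hW : π ⁻¹' ((fun x : E => (x : E ⧸ Λ)) '' ball t δ) ∈ 𝓝 z := by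
    apply (hopen.preimage hπ).mem_nhds
    exact ⟨t, mem_ball_self hδ, hz.symm⟩
  obtain ⟨m, hm, y, ⟨w, hw, hwy⟩, ⟨v, hv, hvy⟩⟩ := hnw _ hW
  have hit : ∀ i : ℕ, π (F^[i] y) = ((f^[i] w : E) : E ⧸ Λ) := by
    intro i
    induction i with
    | zero => exact hwy.symm
    | succ i ih =>
      rw [Function.iterate_succ_apply', Function.iterate_succ_apply']
      exact hf _ _ ih
  refine ⟨m, w, -v + f^[m] w, hm, ?_, hw, ?_⟩
  · rw [← QuotientAddGroup.eq, ← hit m]
    exact hvy
  · have e : dist (f^[m] w) (t + (-v + f^[m] w)) = dist v t := by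
      rw [dist_eq_norm, dist_eq_norm]
      congr 1
      abel
    rw [e]
    exact hv

open Pool.Agent.H922R3.CL in
/-- Up to a diffeomorphism, `N` is a product `T × X` of the torus `T = TM d l s e m`
(`𝕋^d × 𝕋^l × 𝕋^s × 𝕋^e × 𝕋^m`) and a manifold `X` with the action `act` of `G`, and
`F (t, x) = (F₀ t, A(t) x)` with `A(t) ∈ G`, where (the homeomorphism of `T` with the lift) `F₀` is a
tower over a mixed base map. -/
structure IsSkewTower (n : ℕ) (N : Type u) [TopologicalSpace N]
    [ChartedSpace (Pool.Agent.H718R2.G.V n) N] {G : Type} (act : G → N → N) (F : N → N)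
    (d l s e m : ℕ) (π : N → TM d l s e m) (F₀ : VM d l s e m ≃ VM d l s e m) : Prop where
  prod : ∃ R : VM d l s e m → N → N, IsProd n N (ZM d l s e m) act π R ∧
    ∃ A : VM d l s e m → G, ∀ t x, π x = 0 → F (R t x) = act (A t) (R (F₀ t) x)
  tower : ∃ H, IsMixedBase H ∧ MixTower 0 H F₀

end Pool.Agent.Q183.CE
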