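import Pool.Agent.Q183.CE.Skew
import Pool.Agent.Y368.SLD.Cor

/-!
# Skew products over towers, with values in `SL(d, ℝ)`
-/

set_option autoImplicit false
set_option linter.unusedSectionVars false

open scoped Manifold ContDiff Topology
open Filter Set Metric

universe u

namespace Pool.Agent.Q183.CE

open Pool.Agent.H718R2.G Pool.Agent.W564.SC Pool.Agent.TH290.CL Pool.Agent.TH80.CLX
open Pool.Agent.Y368.SLD (SLd IsSLdAction IsLatticePt IsSLdPer)

variable {n : ℕ} {N : Type u} [TopologicalSpace N] [ChartedSpace (V n) N]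
  {E : Type} [NormedAddCommGroup E] [NormedSpace ℝ E] {Λ : AddSubgroup E}

variable [T2Space N] [CompactSpace N] [IsManifold (𝓡 n) ∞ N]

/-- Skew products `F (t, x) = (f t, A(t) x)` on `(E / Λ) × X`, `A(t) ∈ SL(d, ℝ)` acting on `X`. -/
theorem closable_of_skewSL {d : ℕ} (hd : 2 ≤ d) (r : ℕ∞) (hr : 1 ≤ r) {ρ : SLd d → N → N}
    (hρ : IsSLdAction d n N univ ρ) {π : N → E ⧸ Λ} {R : E → N → N}
    (hP : IsProd n N Λ ρ π R) (F : DiffM n N r) (f : E → E) (A : E → SLd d)
    (hF : ∀ t x, π x = 0 → F (R t x) = ρ (A t) (R (f t) x))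
    (z : N) (hlat : IsLatticePt ρ z) (t : E) (hz : π z = (t : E ⧸ Λ)) (ht : TransClosable Λ f t) :
    Closable n N r F z := by
  classical
  apply Pool.Agent.Y368.SLD.main F z
  intro U hU hFU
  obtain ⟨H, hfam, hH0, hH⟩ := transl_fam r F R hP.smooth hP.zero hP.neg
  obtain ⟨κ, hκ, hmem⟩ := fam_mem r hr H hfam z U hU (by rw [hH0]; exact hFU)
  obtain ⟨u, w, hu, hw, hper⟩ := ht κ hκ
  have huw : ‖((u, w) : E × E)‖ < κ := by
    rw [Prod.norm_def]
    exact max_lt hu hw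
  refine ⟨H (u, w), hmem _ huw, subset_closure ⟨d, hd, ?_⟩⟩
  obtain ⟨x, hx, rfl⟩ := exists_fib hP z t hz
  -- the perturbed maps
  set f' : E → E := fun s => f (s - w) + u with hf'
  have hstep : ∀ s y, π y = 0 → H (u, w) (R s y) = ρ (A (s - w)) (R (f' s) y) := by
    intro s y hy
    rw [hH]
    show R u (F (R (-w) (R s y))) = _
    rw [← hP.add, neg_add_eq_sub, hF _ _ hy, hP.comm, ← hP.add, hf', add_comm u]
  have hit : ∀ i : ℕ, ∃ c : SLd d, ∀ g, (H (u, w))^[i] (ρ g (R t x)) =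
      ρ (c * g) (R (f'^[i] t) x) := by
    intro i
    induction i with
    | zero => exact ⟨1, fun g => by rw [one_mul]; rfl⟩
    | succ i ih =>
      obtain ⟨c, hc⟩ := ih
      refine ⟨A (f'^[i] t - w) * c, fun g => ?_⟩
      rw [Function.iterate_succ_apply', hc, Function.iterate_succ_apply' f', ← hP.comm,
        hstep _ _ (by rw [hP.inv, hx]), hP.comm, ← hρ.mul _ _ _ (mem_univ _), mul_assoc]
  obtain ⟨hm, hmΛ⟩ := Nat.find_spec hper
  set m := Nat.find hper with hmdef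
  obtain ⟨b, hb⟩ := hit m
  have hback : R (f'^[m] t) x = R t x := by
    have e : f'^[m] t = (f'^[m] t - t) + t := by abel
    rw [e, hP.add, hP.per _ hmΛ]
  rw [hback] at hb
  refine ⟨univ, ρ, hρ, mem_univ _, hlat, m, hm, ⟨b, 1, 1, le_rfl, ?_, fun g => ?_⟩,
    fun i hi1 him g h hgh => ?_⟩
  · rw [one_pow, hρ.one _ (mem_univ _)]
  · rw [hb, mul_one]
  · obtain ⟨c, hc⟩ := hit i
    rw [hc] at hgh
    apply Nat.find_min hper him
    refine ⟨hi1, ?_⟩
    have h1 := congrArg π hgh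
    rw [hP.inv, hP.inv, hP.cover, hP.cover, hx, zero_add, zero_add] at h1
    have h2 := QuotientAddGroup.eq.1 h1.symm
    rwa [neg_add_eq_sub] at h2

end Pool.Agent.Q183.CE
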